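import Mathlib
import Pool.Agent.Results.MP_4c19c5_an.BettiCenter
import Pool.Agent.W711.KC.Cov7

/-!
# A partially hyperbolic biholomorphism of a threefold which is on none of the three lists

The manifold is `M = (ℍ × ℂ²) / (Γ ⋉ O)`, where `O` is a maximal order of the indefinite rational
quaternion algebra `B` of discriminant six and `Γ` is a torsion free subgroup of finite index of the
group of its units of norm one: the total space of a family of complex tori with quaternionic
multiplication over a compact Riemann surface. The biholomorphism `f` acts on the fibres by a unit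
of a real quadratic subfield of `B`, with derivative `diag (ε, ε⁻¹)`, and it acts trivially on the
base. The center distribution is the horizontal distribution of the flat connection; it is not
holomorphic. No lift of an iterate of `f` to a finite cover of `M` is holomorphically conjugate to a
linear automorphism of a complex torus, to a holomorphic skew product over a linear Anosov
automorphism, or to a time-`t` map of a holomorphic flow of the multiplicative group.
-/

set_option autoImplicit false

open scoped Manifold ContDiff Topology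
open Set

namespace Pool.Agent.Results.MP_398e1f_an.BettiThreefold

open MP_4c19c5_an.BettiCenter

/-- The space `ℂ^m`. -/
abbrev Cn (m : ℕ) : Type := Fin m → ℂ

/-- A linear automorphism `z ↦ A z + b` of the complex torus `ℂ^m / Λ`: here `Λ` is a lattice, that
is a discrete subgroup which spans `ℂ^m` over the reals, and `A` is a linear automorphism of `ℂ^m`
with `A Λ = Λ`. -/
structure TorusAut (m : ℕ) where
  /-- the lattice -/
  Λ : AddSubgroup (Cn m)
  /-- it is discrete -/
  discrete : DiscreteTopology Λ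
  /-- it spans the space over the reals -/
  spans : Submodule.span ℝ (Λ : Set (Cn m)) = ⊤
  /-- the linear map -/
  A : Cn m ≃L[ℂ] Cn m
  /-- it preserves the lattice -/
  preserves : ∀ z, A z ∈ Λ ↔ z ∈ Λ
  /-- the translation -/
  b : Cn m

/-- The linear automorphism is Anosov: no eigenvalue of `A` has modulus one. -/
def TorusAut.IsAnosov {m : ℕ} (T : TorusAut m) : Prop :=
  ∀ α : ℂ, Module.End.HasEigenvalue (T.A : Cn m →ₗ[ℂ] Cn m) α → ‖α‖ ≠ 1

section

variable (N : Threefold)

section

variable {V : Type} [NormedAddCommGroup V] [NormedSpace ℂ V] {Λ : AddSubgroup V}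

/-- Near `x` the map `p : N → V / Λ` is the class modulo `Λ` of the map `P : N → V`, which is
holomorphic at `x`. -/
def IsLift (p : N.pt → V ⧸ Λ) (x : N.pt) (P : N.pt → V) : Prop :=
  ContMDiffAt II 𝓘(ℂ, V) ω P x ∧ ∀ᶠ y in 𝓝 x, p y = (P y : V ⧸ Λ)

/-- `p : N → V / Λ` is a holomorphic submersion: near every point it is the class modulo `Λ` of a
holomorphic map `P` to `V` with surjective derivative. -/
def IsSubmersion (p : N.pt → V ⧸ Λ) : Prop :=
  ∀ x, ∃ P : N.pt → V, IsLift N p x P ∧ Function.Surjective (mfderiv II 𝓘(ℂ, V) P x)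

end

/-- `p` semiconjugates `h` to `T`: if `p x` is the class of `z` then `p (h x)` is the class of
`A z + b`. -/
def Semiconjugates {m : ℕ} (T : TorusAut m) (h : N.pt → N.pt) (p : N.pt → Cn m ⧸ T.Λ) : Prop :=
  ∀ (x : N.pt) (z : Cn m), p x = (z : Cn m ⧸ T.Λ) → p (h x) = ((T.A z + T.b : Cn m) : Cn m ⧸ T.Λ)

/-- (i) `h` is holomorphically conjugate to a linear automorphism of a complex torus, by a bijective
holomorphic submersion of `N` to a torus of dimension three. -/
def IsLinear (h : N.pt → N.pt) : Prop :=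
  ∃ (T : TorusAut 3) (p : N.pt → Cn 3 ⧸ T.Λ),
    IsSubmersion N p ∧ Function.Bijective p ∧ Semiconjugates N T h p

/-- (ii) `h` is a holomorphic skew product over a linear Anosov automorphism of a complex torus of
positive dimension: a surjective holomorphic submersion of `N` to the torus semiconjugates `h` to
the linear Anosov automorphism. -/
def IsSkewProduct (h : N.pt → N.pt) : Prop :=
  ∃ (m : ℕ) (T : TorusAut m) (p : N.pt → Cn m ⧸ T.Λ), 1 ≤ m ∧ T.IsAnosov ∧
    IsSubmersion N p ∧ Function.Surjective p ∧ Semiconjugates N T h p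

/-- The map `(a, x) ↦ φ a x` is holomorphic on `ℂ* × N`. -/
def IsHolomorphicFamily (φ : ℂ → N.pt → N.pt) : Prop :=
  ContMDiffOn (𝓘(ℂ, ℂ).prod II) II ω (fun y : ℂ × N.pt => φ y.1 y.2) ({0}ᶜ ×ˢ univ)

/-- The derivative at `1` of a curve `u : ℂ → N`. -/
noncomputable def velocity (u : ℂ → N.pt) : ℂ →ₗ[ℂ] C3 := (mfderiv 𝓘(ℂ, ℂ) II u 1).toLinearMap

/-- `(a, x) ↦ φ a x`, for `a ≠ 0`, is a holomorphic action of `ℂ*` on `N` whose orbits have
dimension one, that is, its generating vector field vanishes nowhere. -/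
structure IsAction (φ : ℂ → N.pt → N.pt) : Prop where
  holo : IsHolomorphicFamily N φ
  one : ∀ x, φ 1 x = x
  mul : ∀ a b x, a ≠ 0 → b ≠ 0 → φ (a * b) x = φ a (φ b x)
  free : ∀ x, velocity N (fun a => φ a x) 1 ≠ 0

/-- (iii) `h` is the time-`t` map, for some `t ≠ 0`, of a holomorphic action of `ℂ*` with orbits of
dimension one (it need not even be Anosov). -/
def IsTimeMap (h : N.pt → N.pt) : Prop :=
  ∃ φ : ℂ → N.pt → N.pt, IsAction N φ ∧ ∃ t : ℂ, t ≠ 0 ∧ ∀ x, h x = φ t x

end

/-- `π : N → M` is a finite unbranched holomorphic cover. -/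
structure IsFiniteCover (N M : Threefold) (π : N.pt → M.pt) : Prop where
  surjective : Function.Surjective π
  covering : IsCoveringMap π
  finite : ∀ x, (π ⁻¹' {x}).Finite
  holo : IsLocalDiffeomorph II II ω π

/-- **A disproof of the classification.** There are a compact connected complex manifold `M` of
dimension three (even with a Kähler metric `g`) and a partially hyperbolic biholomorphism `f` of `M`
such that no lift `h` of an iterate of `f` to a finite cover `N` of `M` is of type (i), (ii) or
(iii). -/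
theorem result : ∃ M : Threefold, CompactSpace M.pt ∧ T2Space M.pt ∧ ConnectedSpace M.pt ∧
    SecondCountableTopology M.pt ∧
    ∃ (g : M.pt → C3 → ℝ) (f : M.Biholomorphism) (Es Ec Eu : M.pt → Submodule ℂ C3),
      M.IsKahlerMetric g ∧ M.IsPartiallyHyperbolic g f Es Ec Eu ∧
        ∀ (N : Threefold) (π : N.pt → M.pt), IsFiniteCover N M π →
          ∀ (n : ℕ) (h : N.Biholomorphism), 1 ≤ n → (∀ x, π (h x) = f^[n] (π x)) →
            ¬ IsLinear N h ∧ ¬ IsSkewProduct N h ∧ ¬ IsTimeMap N h := by
  refine ⟨example₀, W711.KC.compact_GG, ?_, W711.KC.connected_GG, ?_, W711.KC.gQ, W711.KC.fdiff,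
    W711.KC.EsQ, W711.KC.EcQ, W711.KC.EuQ, W711.KC.isKahler, ?_, ?_⟩
  · exact (inferInstance : T2Space (W711.KC.QQ W711.KC.GG))
  · have := W711.KC.compact_GG
    exact ChartedSpace.secondCountable_of_sigmaCompact C3 (W711.KC.QQ W711.KC.GG)
  · have h := W711.KC.partiallyHyperbolic
    refine ⟨h.ne_bot, fun x v => ?_, h.continuous, h.invariant, h.dominated⟩
    obtain ⟨w, hw, hw'⟩ := h.splitting x v
    refine ⟨(w.1.1, w.2.1.1, w.2.2.1), ⟨w.1.2, w.2.1.2, w.2.2.2, hw⟩, ?_⟩
    rintro ⟨a, b, c⟩ ⟨ha, hb, hc, habc⟩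
    have := hw' (⟨a, ha⟩, ⟨b, hb⟩, ⟨c, hc⟩) habc
    rw [← this]
  · intro N π hπ n h hn hcomm
    have hM : CompactSpace (W711.KC.QQ W711.KC.GG) := W711.KC.compact_GG
    have hL : LocallyCompactSpace (W711.KC.QQ W711.KC.GG) :=
      ChartedSpace.locallyCompactSpace C3 (W711.KC.QQ W711.KC.GG)
    have hconn : ConnectedSpace (W711.KC.QQ W711.KC.GG) := W711.KC.connected_GG
    have hN : CompactSpace N.pt :=
      W711.KC.compact_of_cover_map (B := W711.KC.QQ W711.KC.GG) hπ.covering hπ.finite
    have hne : Nonempty N.pt := by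
      obtain ⟨q⟩ := hconn.toNonempty
      obtain ⟨x, -⟩ := hπ.surjective q
      exact ⟨x⟩
    have hloc : IsLocalDiffeomorph 𝓘(ℂ, W711.KC.C3) 𝓘(ℂ, W711.KC.C3) ω
        (π : N.pt → W711.KC.QQ W711.KC.GG) := hπ.holo
    have hc : Continuous h := h.continuous
    have hs : Function.Surjective h := h.surjective
    have hcomm' : ∀ x, (π (h x) : W711.KC.QQ W711.KC.GG) = (W711.KC.fmap 1)^[n] (π x) := hcomm
    refine ⟨?_, ?_, ?_⟩
    · rintro ⟨T, p, hp, -, hT⟩
      exact W711.KC.no_torus hloc (by simp) T.discrete hp hc hs hn hcomm'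
        (T.A : Cn 3 →L[ℂ] Cn 3) T.b hT
    · rintro ⟨m, T, p, hm, hA, hp, -, hT⟩
      have hmm : Nonempty (Fin m) := ⟨⟨0, hm⟩⟩
      obtain ⟨α, hα⟩ := Module.End.exists_eigenvalue
        ((T.A : Cn m →L[ℂ] Cn m) : Cn m →ₗ[ℂ] Cn m)
      have hα1 : Complex.normSq α ≠ 1 := by
        intro h1
        apply hA α hα
        rw [Complex.normSq_eq_norm_sq] at h1
        nlinarith [norm_nonneg α]
      exact W711.KC.no_factor hloc T.discrete hp hc hs hn hcomm'
        (T.A : Cn m →L[ℂ] Cn m) T.b hT hα hα1
    · rintro ⟨φ, hφ, t, ht, hh⟩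
      obtain ⟨x⟩ := hne
      refine hφ.free x ?_
      have h0 := W711.KC.no_flow hloc hs hn hcomm' hφ.holo hφ.one (fun a ha x => ?_) x
      · exact DFunLike.congr_fun (show W711.KC.md1 (M := N.pt) (fun a => φ a x) = 0 from h0) 1
      · rw [hh, hh, ← hφ.mul t a x ht ha, ← hφ.mul a t x ha ht, mul_comm]

end Pool.Agent.Results.MP_398e1f_an.BettiThreefold
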